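import Mathlib
import Pool.Agent.H896R3.Cheese

set_option autoImplicit false

/-! A compact plane set `X` with dense interior and a function in `A^{(1)}(X)` that is not in
`R(X)`. -/

namespace Pool.Agent.Results.MP_a6d22b_an.NotInR

open Set Filter Topology Metric
open Pool.Agent.H896R3 (Cheese ratAlg no_conj)

/-- `f ∈ A^{(1)}(X)`: `f` is continuous on `X`, holomorphic in the interior, and its derivative
in the interior extends continuously to `X`. -/
def InA1 (X : Set ℂ) (f : ℂ → ℂ) : Prop :=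
  ContinuousOn f X ∧ DifferentiableOn ℂ f (interior X) ∧
    ∃ g : ℂ → ℂ, ContinuousOn g X ∧ ∀ z ∈ interior X, deriv f z = g z

/-- `f ∈ R(X)`: `f` is a uniform limit on `X` of rational functions without poles on `X`. -/
def InR (X : Set ℂ) (f : ℂ → ℂ) : Prop :=
  ∀ ε > 0, ∃ p q : Polynomial ℂ, (∀ z ∈ X, q.eval z ≠ 0) ∧
    ∀ z ∈ X, ‖f z - p.eval z / q.eval z‖ < ε

/-! ### The cheese -/

/-- The centres of the removed discs. -/
noncomputable def a (i : ℕ) : ℂ := TopologicalSpace.denseSeq ℂ i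

/-- The radii of the removed discs. -/
noncomputable def r (i : ℕ) : ℝ := (1 / 2) ^ i * (1 / 16)

lemma r_pos (i : ℕ) : 0 < r i := by unfold r; positivity

lemma r_summable : Summable r := summable_geometric_two.mul_right _

lemma r_sum : ∑' i, r i ≤ 1 / 8 := by
  unfold r
  rw [tsum_mul_right, tsum_geometric_two]
  norm_num

/-- The Swiss cheese. -/
def K : Set ℂ := Cheese a r

lemma K_compact : IsCompact K := by
  have h1 : K = closedBall 0 1 ∩ ⋂ i, {z | r i ≤ ‖z - a i‖} := by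
    ext z; simp [K, Cheese]
  rw [h1]
  refine (isCompact_closedBall 0 1).inter_right ?_
  exact isClosed_iInter fun i => isClosed_le continuous_const (by fun_prop)

lemma K_interior (z : ℂ) (ε : ℝ) (hε : 0 < ε) : ∃ w, w ∉ K ∧ ‖w - z‖ < ε := by
  obtain ⟨i, hi⟩ := (TopologicalSpace.denseRange_denseSeq ℂ).exists_dist_lt z hε
  refine ⟨a i, fun h => ?_, by rw [dist_eq_norm, norm_sub_rev] at hi; exact hi⟩
  have := h.2 i
  rw [sub_self, norm_zero] at this
  exact absurd this (not_le.2 (r_pos i))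

lemma K_nonempty : K.Nonempty := by
  obtain ⟨z, hz, -⟩ := no_conj r r_pos r_summable r_sum (a := a) 0 (zero_mem _)
  exact ⟨z, hz⟩

lemma notMem_K (b : ℂ) (hb : b ∉ K) : 1 < ‖b‖ ∨ ∃ i, ‖b - a i‖ < r i := by
  by_contra h
  push Not at h
  exact hb ⟨h.1, h.2⟩

/-! ### Rational functions on the cheese -/

instance : CompactSpace K := isCompact_iff_compactSpace.1 K_compact

/-- The coordinate function on `K`. -/
noncomputable def zK : C(K, ℂ) := ⟨fun z => (z : ℂ), by fun_prop⟩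

/-- The function `1 / (z - b)` for `b` off `K`. -/
noncomputable def frac (b : ℂ) (hb : b ∉ K) : C(K, ℂ) :=
  ⟨fun z => ((z : ℂ) - b)⁻¹, by
    refine Continuous.inv₀ (by fun_prop) fun z h => hb ?_
    rw [← sub_eq_zero.1 h]; exact z.2⟩

lemma a_notMem (i : ℕ) : a i ∉ K := fun h => by
  have := h.2 i
  rw [sub_self, norm_zero] at this
  exact absurd this (not_le.2 (r_pos i))

/-- The closed algebra generated by the coordinate and the fractions with poles `a i`. -/
noncomputable def B : Subalgebra ℂ C(K, ℂ) :=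
  (Algebra.adjoin ℂ (insert zK (Set.range fun i => frac (a i) (a_notMem i)))).topologicalClosure

lemma isClosed_B : IsClosed (B : Set C(K, ℂ)) := Subalgebra.isClosed_topologicalClosure _

instance : CompleteSpace B := isClosed_B.completeSpace_coe

lemma zK_mem : zK ∈ B := Subalgebra.le_topologicalClosure _ (Algebra.subset_adjoin (Or.inl rfl))

lemma frac_a_mem (i : ℕ) : frac (a i) (a_notMem i) ∈ B :=
  Subalgebra.le_topologicalClosure _ (Algebra.subset_adjoin (Or.inr ⟨i, rfl⟩))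

/-- If `t ∈ B` has norm `< 1` then `(1 - t)⁻¹ ∈ B`. -/
lemma inv_mem (t : C(K, ℂ)) (ht : t ∈ B) (hn : ‖t‖ < 1) : ∃ s ∈ B, (1 - t) * s = 1 := by
  have h1 : ‖(⟨t, ht⟩ : B)‖ < 1 := hn
  let u := Units.oneSub (⟨t, ht⟩ : B) h1
  refine ⟨((↑u⁻¹ : B) : C(K, ℂ)), (↑u⁻¹ : B).2, ?_⟩
  have h2 : (↑u : B) * ↑u⁻¹ = 1 := u.mul_inv
  have h3 := congrArg Subtype.val h2
  exact h3

lemma frac_mem (b : ℂ) (hb : b ∉ K) : frac b hb ∈ B := by
  have hval : ∀ z : K, frac b hb z = ((z : ℂ) - b)⁻¹ := fun z => rfl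
  have hne : ∀ z : K, (z : ℂ) - b ≠ 0 := fun z h => hb (by rw [← sub_eq_zero.1 h]; exact z.2)
  rcases notMem_K b hb with h | ⟨i, hi⟩
  · have hb0 : b ≠ 0 := by
      rintro rfl; rw [norm_zero] at h; linarith
    have hbpos : 0 < ‖b‖ := norm_pos_iff.2 hb0
    obtain ⟨s, hs, hs'⟩ := inv_mem (b⁻¹ • zK) (Subalgebra.smul_mem _ zK_mem _) (by
      rw [ContinuousMap.norm_lt_iff _ one_pos]
      intro z
      rw [ContinuousMap.smul_apply, smul_eq_mul, norm_mul, norm_inv, inv_mul_lt_iff₀ hbpos, mul_one]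
      exact lt_of_le_of_lt z.2.1 h)
    have : frac b hb = (-b⁻¹) • s := by
      ext z
      have h1 : (1 - b⁻¹ * (z : ℂ)) * s z = 1 := congrArg (fun g : C(K, ℂ) => g z) hs'
      rw [hval, ContinuousMap.smul_apply, smul_eq_mul]
      have h2 : ((z : ℂ) - b) * (-b⁻¹ * s z) = 1 := by
        rw [← h1]; field_simp; ring
      exact inv_eq_of_mul_eq_one_right h2
    rw [this]
    exact Subalgebra.smul_mem _ hs _
  · obtain ⟨s, hs, hs'⟩ := inv_mem ((b - a i) • frac (a i) (a_notMem i))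
      (Subalgebra.smul_mem _ (frac_a_mem i) _) (by
      rw [ContinuousMap.norm_lt_iff _ one_pos]
      intro z
      have hz := z.2.2 i
      have hz0 : 0 < ‖(z : ℂ) - a i‖ := lt_of_lt_of_le (r_pos i) hz
      change ‖(b - a i) • ((z : ℂ) - a i)⁻¹‖ < 1
      rw [norm_smul, norm_inv, ← div_eq_mul_inv, div_lt_one hz0]
      exact hi.trans_le hz)
    have : frac b hb = frac (a i) (a_notMem i) * s := by
      ext z
      have hz0 : (z : ℂ) - a i ≠ 0 := by
        intro h0
        have := z.2.2 i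
        rw [h0, norm_zero] at this
        exact absurd this (not_le.2 (r_pos i))
      have h1 : (1 - (b - a i) * ((z : ℂ) - a i)⁻¹) * s z = 1 :=
        congrArg (fun g : C(K, ℂ) => g z) hs'
      rw [hval, ContinuousMap.mul_apply]
      change ((z : ℂ) - b)⁻¹ = ((z : ℂ) - a i)⁻¹ * s z
      have h2 : ((z : ℂ) - b) * (((z : ℂ) - a i)⁻¹ * s z) = 1 := by
        rw [← h1]; field_simp; ring
      exact inv_eq_of_mul_eq_one_right h2
    rw [this]
    exact Subalgebra.mul_mem _ (frac_a_mem i) hs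

/-- Each rational function without poles on `K` is in `B`. -/
lemma rat_mem (p q : Polynomial ℂ) (hq : ∀ z ∈ K, q.eval z ≠ 0) :
    ∃ h ∈ B, ∀ z : K, h z = p.eval (z : ℂ) / q.eval (z : ℂ) := by
  -- polynomials
  have hpoly : ∀ p : Polynomial ℂ, ∃ h ∈ B, ∀ z : K, h z = p.eval (z : ℂ) := by
    intro p
    refine ⟨((Polynomial.aeval (⟨zK, zK_mem⟩ : B) p : B) : C(K, ℂ)), Subtype.property _,
      fun z => ?_⟩
    have h1 := Polynomial.aeval_algHom_apply ((ContinuousMap.evalAlgHom ℂ ℂ z).comp B.val)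
      (⟨zK, zK_mem⟩ : B) p
    have h2 : ((ContinuousMap.evalAlgHom ℂ ℂ z).comp B.val)
        (Polynomial.aeval (⟨zK, zK_mem⟩ : B) p) =
        ((Polynomial.aeval (⟨zK, zK_mem⟩ : B) p : B) : C(K, ℂ)) z := rfl
    rw [← h2, ← h1]
    rfl
  -- inverses of polynomials
  have hinv : ∀ n : ℕ, ∀ q : Polynomial ℂ, q.natDegree = n → (∀ z ∈ K, q.eval z ≠ 0) →
      ∃ h ∈ B, ∀ z : K, h z = (q.eval (z : ℂ))⁻¹ := by
    intro n
    induction n with
    | zero =>
      intro q hd hq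
      rw [Polynomial.natDegree_eq_zero] at hd
      obtain ⟨c, rfl⟩ := hd
      exact ⟨algebraMap ℂ _ c⁻¹, Subalgebra.algebraMap_mem _ _, fun z => by simp⟩
    | succ n ih =>
      intro q hd hq
      have hdeg : q.degree ≠ 0 := by
        intro h0
        have := Polynomial.natDegree_eq_of_degree_eq_some (n := 0) h0
        omega
      obtain ⟨b, hb⟩ := IsAlgClosed.exists_root q hdeg
      obtain ⟨q', rfl⟩ := Polynomial.dvd_iff_isRoot.2 hb
      have hbK : b ∉ K := fun h => hq b h hb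
      have hq0 : q' ≠ 0 := by
        rintro rfl
        rw [mul_zero, Polynomial.natDegree_zero] at hd
        omega
      have hd' : q'.natDegree = n := by
        rw [Polynomial.natDegree_mul (Polynomial.X_sub_C_ne_zero b) hq0,
          Polynomial.natDegree_X_sub_C] at hd
        omega
      obtain ⟨h, hh, hval⟩ := ih q' hd' fun z hz h0 => hq z hz (by
        rw [Polynomial.eval_mul, h0, mul_zero])
      refine ⟨frac b hbK * h, Subalgebra.mul_mem _ (frac_mem b hbK) hh, fun z => ?_⟩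
      rw [ContinuousMap.mul_apply, hval, Polynomial.eval_mul, mul_inv]
      congr 1
      simp only [Polynomial.eval_sub, Polynomial.eval_X, Polynomial.eval_C]
      rfl
  obtain ⟨h1, hh1, hv1⟩ := hpoly p
  obtain ⟨h2, hh2, hv2⟩ := hinv _ q rfl hq
  exact ⟨h1 * h2, Subalgebra.mul_mem _ hh1 hh2, fun z => by
    rw [ContinuousMap.mul_apply, hv1, hv2, div_eq_mul_inv]⟩

/-- Elements of the algebra before closure are restrictions of elements of `ratAlg a`. -/
lemma exists_ratAlg (g : C(K, ℂ))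
    (hg : g ∈ Algebra.adjoin ℂ (insert zK (Set.range fun i => frac (a i) (a_notMem i)))) :
    ∃ G ∈ ratAlg a, ∀ z : K, g z = G z := by
  induction hg using Algebra.adjoin_induction with
  | mem x hx =>
    rcases hx with rfl | ⟨i, rfl⟩
    · exact ⟨fun z => z, Algebra.subset_adjoin (Or.inl rfl), fun z => rfl⟩
    · exact ⟨fun z => (z - a i)⁻¹, Algebra.subset_adjoin (Or.inr ⟨i, rfl⟩), fun z => rfl⟩
  | algebraMap c => exact ⟨algebraMap ℂ _ c, Subalgebra.algebraMap_mem _ _, fun z => rfl⟩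
  | add x y _ _ hx hy =>
    obtain ⟨G, hG, h1⟩ := hx
    obtain ⟨H, hH, h2⟩ := hy
    exact ⟨G + H, add_mem hG hH, fun z => by
      rw [ContinuousMap.add_apply, Pi.add_apply, h1, h2]⟩
  | mul x y _ _ hx hy =>
    obtain ⟨G, hG, h1⟩ := hx
    obtain ⟨H, hH, h2⟩ := hy
    exact ⟨G * H, mul_mem hG hH, fun z => by
      rw [ContinuousMap.mul_apply, Pi.mul_apply, h1, h2]⟩

/-- The conjugate is not approximable on `K` by rational functions without poles on `K`. -/
lemma conj_far (p q : Polynomial ℂ) (hq : ∀ z ∈ K, q.eval z ≠ 0) :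
    ∃ z ∈ K, 1 / 20 ≤ ‖(starRingEnd ℂ) z - p.eval z / q.eval z‖ := by
  by_contra hcon
  push Not at hcon
  obtain ⟨h, hh, hval⟩ := rat_mem p q hq
  have h2 : h ∈ closure ((Algebra.adjoin ℂ (insert zK (Set.range fun i =>
      frac (a i) (a_notMem i))) : Subalgebra ℂ C(K, ℂ)) : Set C(K, ℂ)) := hh
  obtain ⟨g, hg, hd⟩ := Metric.mem_closure_iff.1 h2 (1 / 20) (by norm_num)
  obtain ⟨G, hG, hGv⟩ := exists_ratAlg g hg
  obtain ⟨z, hz, hlt⟩ := no_conj r r_pos r_summable r_sum G hG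
  have h3 := hcon z hz
  have h4 : ‖h ⟨z, hz⟩ - g ⟨z, hz⟩‖ < 1 / 20 := by
    rw [dist_eq_norm] at hd
    exact ((h - g).norm_coe_le_norm ⟨z, hz⟩).trans_lt hd
  rw [hval, hGv] at h4
  have h5 : ‖G z - (starRingEnd ℂ) z‖ ≤ ‖(starRingEnd ℂ) z - p.eval z / q.eval z‖ +
      ‖p.eval z / q.eval z - G z‖ := by
    rw [norm_sub_rev]
    have := norm_add_le ((starRingEnd ℂ) z - p.eval z / q.eval z) (p.eval z / q.eval z - G z)
    rwa [sub_add_sub_cancel] at this
  linarith

/-! ### The small discs -/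

instance : Nonempty K := K_nonempty.to_subtype

/-- A point off `K` near the `i`-th point of a dense sequence of `K`. -/
lemma exists_pt (i k : ℕ) : ∃ w : ℂ, w ∉ K ∧
    ‖w - (TopologicalSpace.denseSeq K i : ℂ)‖ < 1 / ((i : ℝ) + k + 1) :=
  K_interior _ _ (by positivity)

/-- The centres of the small discs. -/
noncomputable def pt (p : ℕ × ℕ) : ℂ := (exists_pt p.1 p.2).choose

lemma pt_notMem (p : ℕ × ℕ) : pt p ∉ K := (exists_pt p.1 p.2).choose_spec.1

lemma pt_near (p : ℕ × ℕ) :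
    ‖pt p - (TopologicalSpace.denseSeq K p.1 : ℂ)‖ < 1 / ((p.1 : ℝ) + p.2 + 1) :=
  (exists_pt p.1 p.2).choose_spec.2

/-- The set of the centres. -/
def W : Set ℂ := Set.range pt

/-- Distance to `K`. -/
noncomputable def dK (z : ℂ) : ℝ := infDist z K

lemma dK_pos (z : ℂ) (hz : z ∉ K) : 0 < dK z :=
  (K_compact.isClosed.notMem_iff_infDist_pos K_nonempty).1 hz

lemma dK_zero (z : ℂ) (hz : z ∈ K) : dK z = 0 := infDist_zero_of_mem hz

lemma dK_nonneg (z : ℂ) : 0 ≤ dK z := infDist_nonneg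

lemma dK_lip (z w : ℂ) : dK z ≤ dK w + ‖z - w‖ := by
  rw [← dist_eq_norm]; exact infDist_le_infDist_add_dist

lemma W_notMem (w : ℂ) (hw : w ∈ W) : w ∉ K := by
  obtain ⟨p, rfl⟩ := hw; exact pt_notMem p

/-- Only finitely many centres are far from `K`. -/
lemma W_finite (δ : ℝ) (hδ : 0 < δ) : {w ∈ W | δ < dK w}.Finite := by
  obtain ⟨n, hn⟩ := exists_nat_one_div_lt hδ
  have h1 : {w ∈ W | δ < dK w} ⊆ pt '' {p : ℕ × ℕ | p.1 ≤ n ∧ p.2 ≤ n} := by
    rintro _ ⟨⟨p, rfl⟩, hw⟩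
    refine ⟨p, ?_, rfl⟩
    have h2 : dK (pt p) ≤ ‖pt p - (TopologicalSpace.denseSeq K p.1 : ℂ)‖ := by
      rw [← dist_eq_norm]; exact infDist_le_dist_of_mem (TopologicalSpace.denseSeq K p.1).2
    have h3 := pt_near p
    have h4 : δ < 1 / ((p.1 : ℝ) + p.2 + 1) := hw.trans_le (h2.trans h3.le)
    have h5 : 1 / ((n : ℝ) + 1) < 1 / ((p.1 : ℝ) + p.2 + 1) := hn.trans h4
    have h6 : ((p.1 : ℝ) + p.2 + 1) < (n : ℝ) + 1 := by
      rwa [one_div_lt_one_div (by positivity) (by positivity)] at h5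
    have h7 : p.1 + p.2 < n := by
      have : ((p.1 + p.2 : ℕ) : ℝ) < (n : ℝ) := by push_cast; linarith
      exact_mod_cast this
    constructor <;> omega
  refine (Set.Finite.image _ ?_).subset h1
  have : {p : ℕ × ℕ | p.1 ≤ n ∧ p.2 ≤ n} = Set.Iic (n, n) := by
    ext p; simp [Prod.le_def]
  rw [this]
  exact Set.finite_Iic _

/-- The centres are dense near `K`. -/
lemma W_dense (z : ℂ) (hz : z ∈ K) (ε : ℝ) (hε : 0 < ε) : ∃ w ∈ W, ‖w - z‖ < ε := by
  obtain ⟨i, hi⟩ := (TopologicalSpace.denseRange_denseSeq K).exists_dist_lt ⟨z, hz⟩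
    (half_pos hε)
  obtain ⟨k, hk⟩ := exists_nat_one_div_lt (half_pos hε)
  refine ⟨pt (i, k), ⟨_, rfl⟩, ?_⟩
  have h1 := pt_near (i, k)
  have h2 : 1 / ((i : ℝ) + k + 1) ≤ 1 / ((k : ℝ) + 1) := by
    apply one_div_le_one_div_of_le (by positivity)
    have : (0 : ℝ) ≤ i := by positivity
    linarith
  have h3 : ‖(TopologicalSpace.denseSeq K i : ℂ) - z‖ < ε / 2 := by
    have : dist z (TopologicalSpace.denseSeq K i : ℂ) < ε / 2 := hi
    rwa [dist_comm, dist_eq_norm] at this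
  calc ‖pt (i, k) - z‖ ≤ ‖pt (i, k) - (TopologicalSpace.denseSeq K i : ℂ)‖ +
      ‖(TopologicalSpace.denseSeq K i : ℂ) - z‖ := norm_sub_le_norm_sub_add_norm_sub _ _ _
    _ < ε / 2 + ε / 2 := add_lt_add (h1.trans_le (h2.trans hk.le)) h3
    _ = ε := by ring

/-- Each centre is isolated. -/
lemma exists_rad (w : ℂ) (hw : w ∉ K) : ∃ ρ : ℝ, 0 < ρ ∧ ρ ≤ dK w / 4 ∧
    ∀ w' ∈ W, w' ≠ w → 2 * ρ < ‖w - w'‖ := by
  have hd := dK_pos w hw
  have hfin : ({w' ∈ W | dK w / 2 < dK w'} \ {w}).Finite := (W_finite _ (half_pos hd)).sdiff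
  obtain ⟨ρ₀, hρ₀, hρ₀'⟩ : ∃ ρ > 0, ∀ w' ∈ ({w' ∈ W | dK w / 2 < dK w'} \ {w}),
      ρ < ‖w - w'‖ := by
    have hcl := hfin.isClosed
    have hnot : w ∉ ({w' ∈ W | dK w / 2 < dK w'} \ {w}) := fun h => h.2 rfl
    obtain ⟨ε, hε, hball⟩ := Metric.isOpen_iff.1 hcl.isOpen_compl w hnot
    refine ⟨ε / 2, half_pos hε, fun w' hw' => ?_⟩
    by_contra hle
    have : w' ∈ ball w ε := by
      rw [mem_ball, dist_comm, dist_eq_norm]
      linarith [not_lt.1 hle]
    exact hball this hw'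
  refine ⟨min (dK w / 5) (ρ₀ / 2), lt_min (by positivity) (by positivity),
    (min_le_left _ _).trans (by linarith), fun w' hw' hne => ?_⟩
  by_cases h : dK w / 2 < dK w'
  · have := hρ₀' w' ⟨⟨hw', h⟩, hne⟩
    calc 2 * min (dK w / 5) (ρ₀ / 2) ≤ 2 * (ρ₀ / 2) := by gcongr; exact min_le_right _ _
      _ = ρ₀ := by ring
      _ < _ := this
  · have h1 := dK_lip w w'
    calc 2 * min (dK w / 5) (ρ₀ / 2) ≤ 2 * (dK w / 5) := by gcongr; exact min_le_left _ _
      _ < dK w / 2 := by linarith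
      _ ≤ _ := by linarith [not_lt.1 h]

/-- The radii of the small discs. -/
noncomputable def ρ (w : ℂ) : ℝ := by
  classical
  exact if h : w ∉ K then (exists_rad w h).choose else 1

lemma ρ_spec (w : ℂ) (hw : w ∉ K) : 0 < ρ w ∧ ρ w ≤ dK w / 4 ∧
    ∀ w' ∈ W, w' ≠ w → 2 * ρ w < ‖w - w'‖ := by
  unfold ρ
  rw [dif_pos hw]
  exact (exists_rad w hw).choose_spec

/-- `K` with the small discs of a set of centres. -/
def Xs (V : Set ℂ) : Set ℂ := K ∪ ⋃ w ∈ V, closedBall w (ρ w)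

lemma dK_ball (w : ℂ) (hw : w ∉ K) (y : ℂ) (hy : y ∈ closedBall w (ρ w)) :
    3 / 4 * dK w ≤ dK y ∧ dK y ≤ 5 / 4 * dK w := by
  have h1 := (ρ_spec w hw).2.1
  rw [mem_closedBall, dist_eq_norm] at hy
  have h2 := dK_lip w y
  have h3 := dK_lip y w
  rw [norm_sub_rev] at h2
  constructor <;> linarith

lemma Xs_closed (V : Set ℂ) (hV : V ⊆ W) : IsClosed (Xs V) := by
  rw [← closure_subset_iff_isClosed]
  intro z hz
  by_cases hzK : z ∈ K
  · exact Or.inl hzK
  have hδ := dK_pos z hzK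
  set δ := dK z with hδd
  set J : Set ℂ := {w ∈ V | 2 / 5 * δ < dK w} with hJ
  have hJfin : J.Finite := (W_finite (2 / 5 * δ) (by positivity)).subset fun w hw =>
    ⟨hV hw.1, hw.2⟩
  have hcl : IsClosed (⋃ w ∈ J, closedBall w (ρ w)) :=
    hJfin.isClosed_biUnion fun w _ => isClosed_closedBall
  have hsub : Xs V ∩ ball z (δ / 2) ⊆ ⋃ w ∈ J, closedBall w (ρ w) := by
    rintro y ⟨hy, hyz⟩
    rw [mem_ball, dist_comm, dist_eq_norm] at hyz
    have h1 := dK_lip z y
    rcases hy with hy | hy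
    · rw [dK_zero y hy] at h1; linarith
    · obtain ⟨w, hw, hyw⟩ := mem_iUnion₂.1 hy
      have h2 := (dK_ball w (W_notMem w (hV hw)) y hyw).2
      exact mem_iUnion₂.2 ⟨w, ⟨hw, by linarith⟩, hyw⟩
  have hz' : z ∈ closure (Xs V ∩ ball z (δ / 2)) := by
    rw [mem_closure_iff_nhds] at hz ⊢
    intro U hU
    obtain ⟨x, hx1, hx2⟩ := hz (U ∩ ball z (δ / 2)) (inter_mem hU (ball_mem_nhds z (half_pos hδ)))
    exact ⟨x, hx1.1, hx2, hx1.2⟩
  have hz'' := hcl.closure_subset_iff.2 hsub hz'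
  obtain ⟨w, hw, hzw⟩ := mem_iUnion₂.1 hz''
  exact Or.inr (mem_iUnion₂.2 ⟨w, hw.1, hzw⟩)

/-- The compact set. -/
def X : Set ℂ := Xs W

lemma K_subset : K ⊆ X := subset_union_left

lemma ball_subset (w : ℂ) (hw : w ∈ W) : closedBall w (ρ w) ⊆ X := fun y hy =>
  Or.inr (mem_iUnion₂.2 ⟨w, hw, hy⟩)

lemma disjoint_balls (w w' : ℂ) (hw : w ∈ W) (hw' : w' ∈ W) (hne : w ≠ w') (y : ℂ)
    (hy : y ∈ closedBall w (ρ w)) (hy' : y ∈ closedBall w' (ρ w')) : False := by
  have h1 := (ρ_spec w (W_notMem w hw)).2.2 w' hw' hne.symm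
  have h2 := (ρ_spec w' (W_notMem w' hw')).2.2 w hw hne
  rw [mem_closedBall, dist_eq_norm] at hy hy'
  have h3 := norm_sub_le_norm_sub_add_norm_sub w y w'
  rw [norm_sub_rev w y] at h3
  rw [norm_sub_rev] at h2
  linarith

lemma ball_off_K (w : ℂ) (hw : w ∈ W) (y : ℂ) (hy : y ∈ closedBall w (ρ w)) : y ∉ K := by
  intro hyK
  have h1 := (dK_ball w (W_notMem w hw) y hy).1
  rw [dK_zero y hyK] at h1
  have := dK_pos w (W_notMem w hw)
  linarith

/-- Each small disc is relatively open in `X`. -/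
lemma ball_nhds (w : ℂ) (hw : w ∈ W) (y : ℂ) (hy : y ∈ closedBall w (ρ w)) :
    ∀ᶠ x in 𝓝 y, x ∈ X → x ∈ closedBall w (ρ w) := by
  have hcl := Xs_closed (W \ {w}) sdiff_subset
  have hnot : y ∉ Xs (W \ {w}) := by
    rintro (h | h)
    · exact ball_off_K w hw y hy h
    · obtain ⟨w', hw', hy'⟩ := mem_iUnion₂.1 h
      exact disjoint_balls w w' hw hw'.1 (fun h => hw'.2 h.symm) y hy hy'
  filter_upwards [hcl.isOpen_compl.mem_nhds hnot] with x hx hxX
  rcases hxX with h | h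
  · exact absurd (Or.inl h) hx
  · obtain ⟨w', hw', hx'⟩ := mem_iUnion₂.1 h
    by_cases he : w' = w
    · rwa [he] at hx'
    · exact absurd (Or.inr (mem_iUnion₂.2 ⟨w', ⟨hw', he⟩, hx'⟩)) hx

lemma X_compact : IsCompact X := by
  refine isCompact_of_isClosed_isBounded (Xs_closed W subset_rfl) ?_
  refine (isBounded_closedBall (x := (0 : ℂ)) (r := 4)).subset ?_
  rintro y (hy | hy)
  · rw [mem_closedBall, dist_zero_right]
    exact hy.1.trans (by norm_num)
  · obtain ⟨w, ⟨p, rfl⟩, hyw⟩ := mem_iUnion₂.1 hy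
    have h1 := (ρ_spec _ (pt_notMem p)).2.1
    have h2 : dK (pt p) ≤ 1 := by
      have h2 : dK (pt p) ≤ ‖pt p - (TopologicalSpace.denseSeq K p.1 : ℂ)‖ := by
        rw [← dist_eq_norm]; exact infDist_le_dist_of_mem (TopologicalSpace.denseSeq K p.1).2
      refine h2.trans ((pt_near p).le.trans ?_)
      rw [div_le_one (by positivity)]
      have : (0 : ℝ) ≤ p.1 := by positivity
      have : (0 : ℝ) ≤ p.2 := by positivity
      linarith
    have h3 : ‖pt p‖ ≤ 2 := by
      have h4 := pt_near p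
      have h5 : ‖(TopologicalSpace.denseSeq K p.1 : ℂ)‖ ≤ 1 := (TopologicalSpace.denseSeq K p.1).2.1
      have h6 := norm_le_norm_add_norm_sub' (pt p) (TopologicalSpace.denseSeq K p.1 : ℂ)
      have h7 : 1 / ((p.1 : ℝ) + p.2 + 1) ≤ 1 := by
        rw [div_le_one (by positivity)]
        have : (0 : ℝ) ≤ p.1 := by positivity
        have : (0 : ℝ) ≤ p.2 := by positivity
        linarith
      linarith
    rw [mem_closedBall, dist_eq_norm] at hyw
    rw [mem_closedBall, dist_zero_right]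
    have h6 := norm_le_norm_add_norm_sub' y (pt p)
    linarith

lemma interior_off_K (z : ℂ) (hz : z ∈ K) : z ∉ interior X := by
  intro hint
  obtain ⟨ε, hε, hball⟩ := Metric.isOpen_iff.1 isOpen_interior z hint
  obtain ⟨w, hw, hwz⟩ := W_dense z hz (ε / 4) (by positivity)
  have hwK := W_notMem w hw
  obtain ⟨hρ0, hρ1, -⟩ := ρ_spec w hwK
  have hdw : dK w ≤ ‖w - z‖ := by
    rw [← dist_eq_norm]; exact infDist_le_dist_of_mem hz
  -- the point on the boundary circle
  set y : ℂ := w + (ρ w : ℂ) with hy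
  have hyb : y ∈ closedBall w (ρ w) := by
    rw [mem_closedBall, dist_eq_norm, hy, add_sub_cancel_left, Complex.norm_real,
      Real.norm_of_nonneg hρ0.le]
  obtain ⟨δ, hδ, hδ'⟩ := Metric.eventually_nhds_iff.1 (ball_nhds w hw y hyb)
  set s : ℝ := min (δ / 2) (ε / 4) with hs
  have hs0 : 0 < s := lt_min (by positivity) (by positivity)
  set x : ℂ := w + ((ρ w + s : ℝ) : ℂ) with hx
  have hxy : dist x y < δ := by
    rw [dist_eq_norm, hx, hy]
    have : w + ((ρ w + s : ℝ) : ℂ) - (w + (ρ w : ℂ)) = (s : ℂ) := by push_cast; ring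
    rw [this, Complex.norm_real, Real.norm_of_nonneg hs0.le]
    exact (min_le_left _ _).trans_lt (by linarith)
  have hxw : ‖x - w‖ = ρ w + s := by
    rw [hx, add_sub_cancel_left, Complex.norm_real, Real.norm_of_nonneg (by positivity)]
  have hxX : x ∈ X := by
    apply interior_subset
    apply hball
    rw [mem_ball, dist_eq_norm]
    have h1 := norm_sub_le_norm_sub_add_norm_sub x w z
    have h2 : s ≤ ε / 4 := min_le_right _ _
    linarith
  have h3 := hδ' hxy hxX
  rw [mem_closedBall, dist_eq_norm, hxw] at h3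
  linarith

lemma X_dense_interior : X ⊆ closure (interior X) := by
  have hin : ∀ w ∈ W, ball w (ρ w) ⊆ interior X := fun w hw =>
    interior_maximal (ball_subset_closedBall.trans (ball_subset w hw)) isOpen_ball
  rintro y (hy | hy)
  · rw [Metric.mem_closure_iff]
    intro ε hε
    obtain ⟨w, hw, hwy⟩ := W_dense y hy ε hε
    exact ⟨w, hin w hw (mem_ball_self (ρ_spec w (W_notMem w hw)).1), by
      rw [dist_comm, dist_eq_norm]; exact hwy⟩
  · obtain ⟨w, hw, hyw⟩ := mem_iUnion₂.1 hy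
    have := closure_mono (hin w hw)
    rw [closure_ball w (ρ_spec w (W_notMem w hw)).1.ne'] at this
    exact this hyw

/-- The function. -/
noncomputable def f (z : ℂ) : ℂ := by
  classical
  exact if h : ∃ w ∈ W, z ∈ closedBall w (ρ w) then (starRingEnd ℂ) h.choose
    else (starRingEnd ℂ) z

lemma f_ball (w : ℂ) (hw : w ∈ W) (y : ℂ) (hy : y ∈ closedBall w (ρ w)) :
    f y = (starRingEnd ℂ) w := by
  have h : ∃ w ∈ W, y ∈ closedBall w (ρ w) := ⟨w, hw, hy⟩
  unfold f
  rw [dif_pos h]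
  congr 1
  by_contra hne
  exact disjoint_balls _ _ h.choose_spec.1 hw hne y h.choose_spec.2 hy

lemma f_K (y : ℂ) (hy : y ∈ K) : f y = (starRingEnd ℂ) y := by
  have h : ¬ ∃ w ∈ W, y ∈ closedBall w (ρ w) := fun ⟨w, hw, h⟩ => ball_off_K w hw y h hy
  unfold f
  rw [dif_neg h]

lemma f_near (y : ℂ) (hy : y ∈ X) : ‖f y - (starRingEnd ℂ) y‖ ≤ dK y := by
  rcases hy with hy | hy
  · rw [f_K y hy, sub_self, norm_zero]; exact dK_nonneg y
  · obtain ⟨w, hw, hyw⟩ := mem_iUnion₂.1 hy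
    rw [f_ball w hw y hyw, ← map_sub, RCLike.norm_conj, norm_sub_rev]
    have h1 := dK_ball w (W_notMem w hw) y hyw
    have h2 := (ρ_spec w (W_notMem w hw)).2.1
    have h3 := dK_pos w (W_notMem w hw)
    rw [mem_closedBall, dist_eq_norm] at hyw
    linarith [h1.1]

lemma f_continuous : ContinuousOn f X := by
  intro z hz
  by_cases hzK : z ∈ K
  · rw [Metric.continuousWithinAt_iff]
    intro ε hε
    refine ⟨ε / 2, half_pos hε, fun {y} hy hyz => ?_⟩
    rw [dist_eq_norm] at hyz ⊢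
    rw [f_K z hzK]
    have h1 := f_near y hy
    have h2 := dK_lip y z
    rw [dK_zero z hzK, zero_add] at h2
    have h3 : ‖(starRingEnd ℂ) y - (starRingEnd ℂ) z‖ = ‖y - z‖ := by
      rw [← map_sub, RCLike.norm_conj]
    have h4 := norm_sub_le_norm_sub_add_norm_sub (f y) ((starRingEnd ℂ) y) ((starRingEnd ℂ) z)
    linarith
  · rcases hz with h | h
    · exact absurd h hzK
    obtain ⟨w, hw, hzw⟩ := mem_iUnion₂.1 h
    have h1 : f =ᶠ[𝓝[X] z] fun _ => (starRingEnd ℂ) w := by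
      have h2 := (ball_nhds w hw z hzw).filter_mono (nhdsWithin_le_nhds (s := X))
      filter_upwards [h2, self_mem_nhdsWithin] with x hx hxX
      exact f_ball w hw x (hx hxX)
    exact (continuousWithinAt_const.congr_of_eventuallyEq h1 (f_ball w hw z hzw))

lemma f_hasDerivAt (z : ℂ) (hz : z ∈ interior X) : HasDerivAt f 0 z := by
  have hzX := interior_subset hz
  rcases hzX with h | h
  · exact absurd hz (interior_off_K z h)
  obtain ⟨w, hw, hzw⟩ := mem_iUnion₂.1 h
  have h1 : f =ᶠ[𝓝 z] fun _ => (starRingEnd ℂ) w := by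
    filter_upwards [ball_nhds w hw z hzw, isOpen_interior.mem_nhds hz] with x hx hxX
    exact f_ball w hw x (hx (interior_subset hxX))
  exact (hasDerivAt_const z _).congr_of_eventuallyEq h1

/-- **`A^{(1)}(X)` need not be contained in `R(X)`.** There is a compact plane set `X` with dense
interior and a function in `A^{(1)}(X)`, even with zero derivative in the interior, which is not a
uniform limit on `X` of rational functions without poles on `X`. -/
theorem result : ∃ (X : Set ℂ) (f : ℂ → ℂ), IsCompact X ∧ X.Nonempty ∧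
    X ⊆ closure (interior X) ∧ InA1 X f ∧ (∀ z ∈ interior X, deriv f z = 0) ∧ ¬ InR X f := by
  refine ⟨X, f, X_compact, K_nonempty.mono K_subset, X_dense_interior,
    ⟨f_continuous, fun z hz => (f_hasDerivAt z hz).differentiableAt.differentiableWithinAt,
      fun _ => 0, continuousOn_const, fun z hz => (f_hasDerivAt z hz).deriv⟩,
    fun z hz => (f_hasDerivAt z hz).deriv, fun hR => ?_⟩
  obtain ⟨p, q, hq, hpq⟩ := hR (1 / 20) (by norm_num)
  obtain ⟨z, hz, h1⟩ := conj_far p q fun z hz => hq z (K_subset hz)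
  have h2 := hpq z (K_subset hz)
  rw [f_K z hz] at h2
  linarith

end Pool.Agent.Results.MP_a6d22b_an.NotInR
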